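import Pool.Agent.MWLQ.StmtsB
import Pool.Agent.MWGQ.StmtsC

/-!
# Squad MWLQ, row CLB (helper49): the insertion of `y^n` is an identity in class b
-/

set_option autoImplicit false

namespace Pool.Agent.MWLQ.H49

open Pool.Agent.Helper14_MV
open Pool.Agent.Helper2_MV (RR RR.append RR.sub RR.symm RR.refl)
open Pool.Agent.MWK (pre)
open Pool.Agent.MWGN (nn Tau gh)
open Pool.Agent.MWGQ (pw Z Gn E0 A0 P0)
open Pool.Agent.MWLE (pin sep con tl tll Sg t1 Fc Fb Fy Fx Fu Fz rz sf k0)
open Pool.Agent.MWLQ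

theorem pw_one (X : List ℕ) : pw 1 X = X := by simp [pw]

theorem pw_add (a b : ℕ) (X : List ℕ) : pw (a + b) X = pw a X ++ pw b X := by
  unfold pw
  rw [← List.replicate_append_replicate, List.flatten_append]

theorem pw_succ (a : ℕ) (X : List ℕ) : pw (a + 1) X = X ++ pw a X := by
  rw [add_comm, pw_add, pw_one]

theorem pw_nil (a : ℕ) : pw a [] = [] := by simp [pw]

theorem rep_sub (k d : ℕ) (g : ℕ → List ℕ) : (List.replicate k d).flatMap g = pw k (g d) := by
  induction k with
  | zero => rfl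
  | succ k ih => rw [List.replicate_succ, List.flatMap_cons, ih, pw_succ]

theorem pw_fm (k : ℕ) (X : List ℕ) (g : ℕ → List ℕ) : (pw k X).flatMap g = pw k (X.flatMap g) := by
  induction k with
  | zero => rfl
  | succ k ih => rw [pw_succ, pw_succ, List.flatMap_append, ih]

theorem cx {β : FIC} (p q : List ℕ) {l l' : List ℕ} (h : RR β l l') :
    RR β (p ++ (l ++ q)) (p ++ (l' ++ q)) :=
  (RR.refl p).append (h.append (RR.refl q))

theorem fmc {α : Type} {f g : α → List ℕ} : ∀ {l : List α}, (∀ a ∈ l, f a = g a) →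
    l.flatMap f = l.flatMap g
  | [], _ => rfl
  | a :: l, h => by
    rw [List.flatMap_cons, List.flatMap_cons, h a List.mem_cons_self,
      fmc (fun b hb => h b (List.mem_cons_of_mem _ hb))]

/-- powers behind a first occurrence -/
theorem px {n : ℕ} {β : FIC} (hp : MWGQ.PwxStmt) (hG : Gn n β) (A X u R : List ℕ) (a b : ℕ)
    (ha : 1 ≤ a) (hb : 1 ≤ b) (hab : a ≡ b [MOD n]) :
    RR β (A ++ (X ++ (u ++ (pw a X ++ R)))) (A ++ (X ++ (u ++ (pw b X ++ R)))) := by
  have h := cx A R ((hp n β hG).2.1 X u a b ha hb hab)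
  simp only [List.append_assoc] at h
  exact h

/-- lights and contents -/
def LL (m : ℕ) (F : ℕ → List ℕ) (i : ℕ) : List ℕ :=
  if i = m + 1 then F 0 else if i = m + 2 then F (pin (m + 1)) else F (pin i)
def CC (F : ℕ → List ℕ) (i : ℕ) : List ℕ := if i = 0 then [] else F (con i)

theorem bsf (n m : ℕ) (F : ℕ → List ℕ) (X : List ℕ) (s : ℕ → Bool)
    (hs : ∀ i ≤ m, s i = false) :
    MWGQ.bs n (LL m F) (CC F) X s (m + 2) = F (pin 0) ++ ((cp n 1 m).flatMap F ++ (F 0 ++
      (pw (n + 1) (F (con (m + 1))) ++ (if s (m + 1) then pw (2 * n) X else [])))) := by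
  have e1 : ∀ g : ℕ → List ℕ, (List.range (m + 2)).flatMap g =
      g 0 ++ ((List.range m).flatMap (fun i => g (i + 1)) ++ g (m + 1)) := by
    intro g
    rw [List.range_succ, List.flatMap_append, List.range_succ_eq_map, List.flatMap_cons,
      List.flatMap_map, List.append_assoc]
    simp
  unfold MWGQ.bs
  rw [e1]
  have e2 : LL m F 0 ++ (pw (n + 1) (CC F 0) ++ (if s 0 then pw (2 * n) X else [])) =
      F (pin 0) := by
    rw [hs 0 (Nat.zero_le _)]
    have h1 : CC F 0 = [] := by
      unfold CC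
      rw [if_pos rfl]
    have h2 : LL m F 0 = F (pin 0) := by
      unfold LL
      rw [if_neg (by omega), if_neg (by omega)]
    rw [h1, h2, pw_nil]
    simp
  have e3 : (List.range m).flatMap (fun i => LL m F (i + 1) ++ (pw (n + 1) (CC F (i + 1)) ++
      (if s (i + 1) then pw (2 * n) X else []))) = (cp n 1 m).flatMap F := by
    unfold cp
    rw [List.flatMap_assoc]
    apply fmc
    intro i hi
    have him : i < m := List.mem_range.1 hi
    rw [hs (i + 1) (by omega)]
    have h1 : LL m F (i + 1) = F (pin (1 + i)) := by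
      unfold LL
      rw [if_neg (by omega), if_neg (by omega), Nat.add_comm i 1]
    have h2 : CC F (i + 1) = F (con (1 + i)) := by
      unfold CC
      rw [if_neg (by omega), Nat.add_comm i 1]
    rw [h1, h2, List.flatMap_cons, rep_sub]
    simp
  have e4 : LL m F (m + 1) ++ (pw (n + 1) (CC F (m + 1)) ++
      (if s (m + 1) then pw (2 * n) X else [])) = F 0 ++ (pw (n + 1) (F (con (m + 1))) ++
        (if s (m + 1) then pw (2 * n) X else [])) := by
    have h1 : LL m F (m + 1) = F 0 := by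
      unfold LL
      rw [if_pos rfl]
    have h2 : CC F (m + 1) = F (con (m + 1)) := by
      unfold CC
      rw [if_neg (by omega)]
    rw [h1, h2]
  rw [e2, e3, e4]

/-- **CLB** -/
theorem clb (hp : MWGQ.PwxStmt) (htfw : MWLE.TfwStmt) (_ : DdcStmt) (hfsp : MWGQ.FspStmt)
    (hvvd : VvdStmt) : ClbStmt := by
  intro n β hG hF σ τ m hσ f p q hf1
  have hn := hG.pos
  obtain ⟨F, hFd⟩ : ∃ F : ℕ → List ℕ, F = fun a => (f a).flatMap (psi n 1) := ⟨_, rfl⟩
  have hFa : ∀ a, (f a).flatMap (psi n 1) = F a := fun a => by rw [hFd]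
  have hFm : ∀ l : List ℕ, (l.flatMap f).flatMap (psi n 1) = l.flatMap F := by
    intro l
    rw [List.flatMap_assoc, hFd]
  obtain ⟨P, hP⟩ : ∃ P : List ℕ, P = p.flatMap (psi n 1) := ⟨_, rfl⟩
  obtain ⟨Q, hQ⟩ : ∃ Q : List ℕ, Q = q.flatMap (psi n 1) := ⟨_, rfl⟩
  obtain ⟨τ', S, R, hτ', hT⟩ := htfw σ τ m hσ F
  obtain ⟨B, hB⟩ : ∃ B : List ℕ, B = (cp n (m + 2) m ++ [pin (2 * m + 2)]).flatMap F := ⟨_, rfl⟩
  obtain ⟨K, hK⟩ : ∃ K : List ℕ, K = pw (n + 1) (F (con 0)) := ⟨_, rfl⟩
  obtain ⟨G, hGd⟩ : ∃ G : List ℕ, G = F (pin 0) ++ ((cp n 1 m).flatMap F ++ (F 0 ++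
      pw (n + 1) (F (con (m + 1))))) := ⟨_, rfl⟩
  obtain ⟨T, hTd⟩ : ∃ T : List ℕ, T = (F 0 ++ (tl σ).flatMap F) ++ Q := ⟨_, rfl⟩
  -- the images
  have im : ∀ g : Bool, (p ++ ((wd n σ m false g).flatMap f ++ q)).flatMap (psi n 1) =
      P ++ (F 1 ++ (K ++ (G ++ ((if g then pw n (F 1) else []) ++ (F (pin (m + 1)) ++
        (F 1 ++ (B ++ T))))))) := by
    intro g
    have e1 : wd n σ m false g = 1 :: (List.replicate (n + 1) (con 0) ++ (pin 0 :: (cp n 1 m ++
        (0 :: (List.replicate (n + 1) (con (m + 1)) ++ ((if g then List.replicate n 1 else []) ++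
          (pin (m + 1) :: 1 :: ((cp n (m + 2) m ++ [pin (2 * m + 2)]) ++
            (0 :: tl σ))))))))) := by
      unfold wd wb N0 Nx
      simp only [Bool.false_eq_true, if_false, List.append_assoc, List.cons_append,
        List.nil_append]
    have e2 : (if g then List.replicate n 1 else []).flatMap F =
        (if g then pw n (F 1) else []) := by
      cases g
      · rfl
      · exact rep_sub n 1 F
    rw [List.flatMap_append, List.flatMap_append, hFm, ← hP, ← hQ, e1]
    simp only [List.flatMap_append, List.flatMap_cons, rep_sub, e2, List.append_assoc]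
    rw [hTd, hGd, hB, hK]
    simp only [List.flatMap_append, List.flatMap_cons, List.flatMap_nil, List.append_nil,
      List.nil_append, List.append_assoc]
  -- doubling of the first image
  have a1 : ∀ R' : List ℕ, RR β (P ++ (F 1 ++ R')) (P ++ (F 1 ++ (pw (2 * n) (F 1) ++ R'))) := by
    intro R'
    have h1 := hvvd n β hG 1 p (f 1) [] hf1
    simp only [List.flatMap_append, List.append_nil, pw_fm, hFa, ← hP] at h1
    have h2 := (hp n β hG).1 (F 1) (n + 1) (2 * n + 1) (by omega) (by omega) (by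
      unfold Nat.ModEq
      have e : 2 * n + 1 = n + 1 + n := by omega
      rw [e, Nat.add_mod_right])
    rw [pw_succ (2 * n)] at h2
    have h3 : RR β (P ++ F 1) (P ++ (F 1 ++ pw (2 * n) (F 1))) :=
      β.trans h1 ((RR.refl P).append h2)
    have h4 := h3.append (RR.refl R')
    simp only [List.append_assoc] at h4
    exact h4
  -- the hull
  have main : ∀ s : ℕ → Bool, (∀ i ≤ m, s i = false) →
      RR β (P ++ (F 1 ++ (K ++ (G ++ ((if s (m + 1) then pw n (F 1) else []) ++
        (F (pin (m + 1)) ++ (F 1 ++ (B ++ T))))))))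
        (P ++ (F 1 ++ (K ++ (MWGQ.ws n (F 1) (F 1 ++ B) S (LL m F) (CC F) s τ' (m + 2) ++
          (R ++ Q))))) := by
    intro s hs
    have h4 : MWGQ.ws n (F 1) (F 1 ++ B) S (LL m F) (CC F) s τ' (m + 2) ++ (R ++ Q) =
        pw (2 * n) (F 1) ++ (G ++ ((if s (m + 1) then pw (2 * n) (F 1) else []) ++
          (F (pin (m + 1)) ++ (pw (2 * n) (F 1) ++ (F 1 ++ (B ++ T)))))) := by
      have h5 : (τ'.flatMap (fun i => S i ++ LL m F i)) ++ R = F 0 ++ (tl σ).flatMap F := by
        rw [hT]
        rfl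
      have h6 : LL m F (m + 2) = F (pin (m + 1)) := by
        unfold LL
        rw [if_neg (by omega), if_pos rfl]
      unfold MWGQ.ws
      rw [bsf n m F (F 1) s hs, h6, hTd, hGd, ← h5]
      simp only [List.append_assoc]
    rw [h4]
    -- the power in front of `pin (m+1)`
    have s1 : RR β (P ++ (F 1 ++ (K ++ (G ++ ((if s (m + 1) then pw n (F 1) else []) ++
        (F (pin (m + 1)) ++ (F 1 ++ (B ++ T))))))))
        (P ++ (F 1 ++ (K ++ (G ++ ((if s (m + 1) then pw (2 * n) (F 1) else []) ++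
        (F (pin (m + 1)) ++ (F 1 ++ (B ++ T)))))))) := by
      by_cases h : s (m + 1) = true
      · rw [if_pos h, if_pos h]
        have h7 := px hp hG P (F 1) (K ++ G) (F (pin (m + 1)) ++ (F 1 ++ (B ++ T))) n (2 * n)
          hn (by omega) (by
            unfold Nat.ModEq
            rw [Nat.mod_self, Nat.mul_mod_left])
        simp only [List.append_assoc] at h7
        exact h7
      · rw [if_neg h, if_neg h]
        exact RR.refl _
    -- the power in front of `B`
    have s2 : RR β (P ++ (F 1 ++ (K ++ (G ++ ((if s (m + 1) then pw (2 * n) (F 1) else []) ++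
        (F (pin (m + 1)) ++ (F 1 ++ (B ++ T))))))))
        (P ++ (F 1 ++ (K ++ (G ++ ((if s (m + 1) then pw (2 * n) (F 1) else []) ++
        (F (pin (m + 1)) ++ (pw (2 * n) (F 1) ++ (F 1 ++ (B ++ T))))))))) := by
      have h7 := px hp hG P (F 1) (K ++ (G ++ ((if s (m + 1) then pw (2 * n) (F 1) else []) ++
        F (pin (m + 1))))) (B ++ T) 1 (2 * n + 1) le_rfl (by omega) (by
            unfold Nat.ModEq
            rw [Nat.add_mod, Nat.mul_mod_left, Nat.zero_add, Nat.mod_mod])
      rw [pw_one, pw_add, pw_one] at h7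
      simp only [List.append_assoc] at h7
      exact h7
    -- the power behind `K`
    have s3 : ∀ Y : List ℕ, RR β (P ++ (F 1 ++ (K ++ Y)))
        (P ++ (F 1 ++ (K ++ (pw (2 * n) (F 1) ++ Y)))) := by
      intro Y
      have h7 := a1 (K ++ Y)
      have h8 := (hp n β hG).2.2 (F 1) (F (con 0)) (2 * n) (n + 1) (by omega) (by omega)
      rw [← hK] at h8
      have h9 := cx (P ++ F 1) Y h8
      simp only [List.append_assoc] at h9
      exact β.trans h7 h9
    exact β.trans s1 (β.trans s2 (s3 _))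
  have m0 := main (fun _ => false) (fun _ _ => rfl)
  have m1 := main (fun i => decide (i = m + 1)) (fun i hi => by
    have : ¬ i = m + 1 := by omega
    exact decide_eq_false this)
  have e4 : (if (fun _ : ℕ => false) (m + 1) = true then pw n (F 1) else []) = [] := rfl
  have e5 : (if (fun i => decide (i = m + 1)) (m + 1) = true then pw n (F 1) else []) =
      pw n (F 1) := by
    rw [if_pos (by simp)]
  rw [e4] at m0
  rw [e5] at m1
  have fb := hF (m + 2) τ' hτ' (F 1) (F 1 ++ B) S (LL m F) (CC F)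
  have fs := hfsp n β hG (m + 2) (fun k _ τ hτ => hF k τ hτ) τ' hτ'
    (fun i => decide (i = m + 1)) ⟨m + 1, by omega, by simp⟩ (F 1) (F 1 ++ B) S (LL m F) (CC F)
  have mid := cx (P ++ (F 1 ++ K)) (R ++ Q) (β.trans fb fs.symm)
  simp only [List.append_assoc] at mid
  rw [im false, im true]
  exact β.trans m0 (β.trans mid m1.symm)

end Pool.Agent.MWLQ.H49
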